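import Mathlib

set_option autoImplicit false

/-!
# Extremality of co-singleton subsets of cyclic groups

Every `(n-1)`-element subset of `ℤ_n` is extreme (Sidon constant `√(n-1)`) when `n = q + 1` with a
prime power `q > 2`, and when `n` is a prime with `n ≡ 1 (mod 4)`.

* `n = q + 1`: let `g` generate `F_{q²}ˣ` and let `χ` be a character of it that is nontrivial on
  `K = F_q`. The line `g + K` meets every coset `g^x Kˣ`, `x ≠ 0`, of `Kˣ` exactly once, say in
  `g + a_x`; put `c_x = χ(g + a_x)`.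
* `n = p ≡ 1 (mod 4)`: `c_x = u + i s (x/p)` with `u = 1/√(p-1)`, `s = √((p-2)/(p-1))`.
-/

namespace Pool.Agent.Results.MP_462016_an.PrimePowerPlusOne

open Finset

/-- The character value `e^{2πi x t/n}` for `x, t ∈ ℤ_n`. -/
noncomputable def e {n : ℕ} (x t : ZMod n) : ℂ :=
  Complex.exp (2 * Real.pi * Complex.I * ((x.val * t.val : ℕ) : ℂ) / n)

/-- The Sidon constant `S(E)` of a subset `E` of `ℤ_n`. -/
noncomputable def sidon {n : ℕ} (E : Finset (ZMod n)) : ℝ :=
  sSup {r : ℝ | ∃ a : ZMod n → ℂ, (∀ t : ZMod n, ‖∑ x ∈ E, a x * e x t‖ ≤ 1) ∧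
    r = ∑ x ∈ E, ‖a x‖}

/-- `E` is extreme: its Sidon constant is `√|E|`. -/
def Extreme {n : ℕ} (E : Finset (ZMod n)) : Prop := sidon E = Real.sqrt E.card

/-- There are unimodular coefficients on `E` whose Fourier transform has constant modulus. -/
def Flat {n : ℕ} (E : Finset (ZMod n)) : Prop :=
  ∃ c : ZMod n → ℂ, (∀ x ∈ E, ‖c x‖ = 1) ∧ ∀ t : ZMod n, ‖∑ x ∈ E, c x * e x t‖ ^ 2 = E.card

theorem e_eq {n : ℕ} [NeZero n] (x t : ZMod n) : e x t = ZMod.stdAddChar (x * t) := by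
  have h : x * t = (((x.val * t.val : ℕ) : ℤ) : ZMod n) := by
    push_cast
    rw [ZMod.natCast_zmod_val, ZMod.natCast_zmod_val]
  rw [h, ZMod.stdAddChar_coe]
  unfold e
  push_cast
  rfl

theorem parseval {n : ℕ} [NeZero n] (E : Finset (ZMod n)) (a : ZMod n → ℂ) :
    ∑ t : ZMod n, ‖∑ x ∈ E, a x * e x t‖ ^ 2 = n * ∑ x ∈ E, ‖a x‖ ^ 2 := by
  have hC : ((∑ t : ZMod n, ‖∑ x ∈ E, a x * e x t‖ ^ 2 : ℝ) : ℂ)
      = ((n * ∑ x ∈ E, ‖a x‖ ^ 2 : ℝ) : ℂ) := by
    have h1 : ∀ t : ZMod n, ((‖∑ x ∈ E, a x * e x t‖ ^ 2 : ℝ) : ℂ)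
        = ∑ x ∈ E, ∑ y ∈ E, a x * (starRingEnd ℂ) (a y) * ZMod.stdAddChar (t * (x - y)) := by
      intro t
      rw [← Complex.normSq_eq_norm_sq, ← Complex.mul_conj, map_sum, Finset.sum_mul_sum]
      refine Finset.sum_congr rfl fun x _ => Finset.sum_congr rfl fun y _ => ?_
      rw [map_mul, e_eq, e_eq, ← AddChar.map_neg_eq_conj]
      have : ZMod.stdAddChar (t * (x - y)) = ZMod.stdAddChar (x * t) * ZMod.stdAddChar (-(y * t)) := by
        rw [← AddChar.map_add_eq_mul]
        congr 1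
        ring
      rw [this]
      ring
    push_cast
    have h1' : ∀ t : ZMod n, (‖∑ x ∈ E, a x * e x t‖ : ℂ) ^ 2
        = ∑ x ∈ E, ∑ y ∈ E, a x * (starRingEnd ℂ) (a y) * ZMod.stdAddChar (t * (x - y)) := by
      intro t
      rw [← h1 t]
      push_cast
      rfl
    rw [Finset.sum_congr rfl fun t _ => h1' t, Finset.sum_comm, Finset.mul_sum]
    refine Finset.sum_congr rfl fun x hx => ?_
    rw [Finset.sum_comm]
    have h2 : ∀ y ∈ E, ∑ t : ZMod n, a x * (starRingEnd ℂ) (a y) * ZMod.stdAddChar (t * (x - y))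
        = if y = x then (n : ℂ) * (a x * (starRingEnd ℂ) (a x)) else 0 := by
      intro y _
      rw [← Finset.mul_sum, AddChar.sum_mulShift (x - y) (ZMod.isPrimitive_stdAddChar n)]
      by_cases h : y = x
      · subst h
        rw [sub_self, if_pos rfl, if_pos rfl, ZMod.card]
        push_cast
        ring
      · rw [if_neg (sub_ne_zero.2 fun h' => h h'.symm), if_neg h]
        push_cast
        ring
    rw [Finset.sum_congr rfl h2, Finset.sum_ite_eq' E x, if_pos hx, Complex.mul_conj,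
      Complex.normSq_eq_norm_sq]
    push_cast
    rfl
  exact_mod_cast hC

theorem extreme_of_flat {n : ℕ} [NeZero n] (E : Finset (ZMod n)) (hE : 0 < E.card) (h : Flat E) :
    Extreme E := by
  obtain ⟨c, hc1, hc2⟩ := h
  have hN : (0 : ℝ) < E.card := by exact_mod_cast hE
  have hs : 0 < Real.sqrt E.card := Real.sqrt_pos.2 hN
  have hn : (0 : ℝ) < n := by exact_mod_cast Nat.pos_of_ne_zero (NeZero.ne n)
  unfold Extreme sidon
  apply IsGreatest.csSup_eq
  refine ⟨⟨fun x => c x / Real.sqrt E.card, fun t => ?_, ?_⟩, ?_⟩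
  · have h1 : ∑ x ∈ E, c x / (Real.sqrt E.card : ℂ) * e x t
        = (∑ x ∈ E, c x * e x t) / (Real.sqrt E.card : ℂ) := by
      rw [Finset.sum_div]
      exact Finset.sum_congr rfl fun x _ => by ring
    rw [h1, norm_div, Complex.norm_real, Real.norm_of_nonneg hs.le]
    have h2 : ‖∑ x ∈ E, c x * e x t‖ = Real.sqrt E.card := by
      rw [← hc2 t, Real.sqrt_sq (norm_nonneg _)]
    rw [h2, div_self hs.ne']
  · have h1 : ∀ x ∈ E, ‖c x / (Real.sqrt E.card : ℂ)‖ = 1 / Real.sqrt E.card := by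
      intro x hx
      rw [norm_div, Complex.norm_real, Real.norm_of_nonneg hs.le, hc1 x hx]
    rw [Finset.sum_congr rfl h1, Finset.sum_const, nsmul_eq_mul]
    field_simp
    exact Real.sq_sqrt hN.le
  · rintro r ⟨a, ha, rfl⟩
    have h1 : ∑ t : ZMod n, ‖∑ x ∈ E, a x * e x t‖ ^ 2 ≤ ∑ _t : ZMod n, (1 : ℝ) := by
      refine Finset.sum_le_sum fun t _ => ?_
      have := ha t
      have h0 := norm_nonneg (∑ x ∈ E, a x * e x t)
      nlinarith
    rw [parseval, Finset.sum_const, Finset.card_univ, ZMod.card, nsmul_eq_mul] at h1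
    have h2 : ∑ x ∈ E, ‖a x‖ ^ 2 ≤ 1 := by
      have := (mul_le_mul_iff_right₀ hn).1 h1
      exact this
    have h3 := sq_sum_le_card_mul_sum_sq (s := E) (f := fun x => ‖a x‖)
    apply Real.le_sqrt_of_sq_le
    calc (∑ x ∈ E, ‖a x‖) ^ 2 ≤ E.card * ∑ x ∈ E, ‖a x‖ ^ 2 := h3
      _ ≤ E.card * 1 := mul_le_mul_of_nonneg_left h2 hN.le
      _ = E.card := mul_one _

theorem flat_of_card {n : ℕ} [NeZero n] (h0 : Flat ((univ : Finset (ZMod n)).erase 0))
    (E : Finset (ZMod n)) (hE : E.card + 1 = n) : Flat E := by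
  obtain ⟨c, hc1, hc2⟩ := h0
  have hco : (Eᶜ).card = 1 := by
    rw [Finset.card_compl, ZMod.card]
    omega
  obtain ⟨s, hs⟩ := Finset.card_eq_one.1 hco
  have hmem : ∀ x, x ∈ E ↔ x ≠ s := by
    intro x
    have : x ∈ Eᶜ ↔ x ∈ ({s} : Finset (ZMod n)) := by rw [hs]
    rw [Finset.mem_compl, Finset.mem_singleton] at this
    tauto
  refine ⟨fun x => c (x - s), ?_, ?_⟩
  · intro x hx
    apply hc1
    rw [Finset.mem_erase]
    exact ⟨sub_ne_zero.2 ((hmem x).1 hx), Finset.mem_univ _⟩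
  · intro t
    have h1 : ∑ x ∈ E, c (x - s) * e x t
        = ZMod.stdAddChar (s * t) * ∑ y ∈ (univ : Finset (ZMod n)).erase 0, c y * e y t := by
      rw [Finset.mul_sum]
      refine Finset.sum_equiv (Equiv.subRight s) ?_ ?_
      · intro x
        rw [hmem, Finset.mem_erase]
        simp [sub_eq_zero]
      · intro x _
        simp only [Equiv.subRight_apply]
        rw [e_eq, e_eq]
        have : x * t = s * t + (x - s) * t := by ring
        rw [this, AddChar.map_add_eq_mul]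
        ring
    rw [h1, norm_mul, AddChar.norm_apply, one_mul, hc2 t, Finset.card_erase_of_mem (Finset.mem_univ _),
      Finset.card_univ, ZMod.card]
    congr 1
    omega

/-! ### Primes `p ≡ 1 (mod 4)` -/

theorem flat_prime (p : ℕ) [Fact p.Prime] (hp : p % 4 = 1) :
    Flat ((univ : Finset (ZMod p)).erase 0) := by
  have hp5 : 5 ≤ p := by
    have h1 := (Fact.out : p.Prime).two_le
    by_contra h
    interval_cases p <;> simp_all
  have hpR : (5 : ℝ) ≤ p := by exact_mod_cast hp5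
  obtain ⟨χ, hχ⟩ : ∃ χ : MulChar (ZMod p) ℂ,
      χ = (quadraticChar (ZMod p)).ringHomComp (Int.castRingHom ℂ) := ⟨_, rfl⟩
  have hchar : ringChar (ZMod p) ≠ 2 := by
    rw [ZMod.ringChar_zmod_n]
    omega
  have hval : ∀ x : ZMod p, χ x = ((quadraticChar (ZMod p) x : ℤ) : ℂ) := by
    intro x
    rw [hχ]
    rfl
  have hquad : χ.IsQuadratic := by
    rw [hχ]
    exact (quadraticChar_isQuadratic (ZMod p)).comp _
  have hne : χ ≠ 1 := by
    intro h
    obtain ⟨a, ha⟩ := quadraticChar_exists_neg_one' hchar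
    have h1 := hval a
    rw [h, ha] at h1
    have h2 : (1 : MulChar (ZMod p) ℂ) (a : ZMod p) = 1 := MulChar.one_apply_coe a
    rw [h2] at h1
    norm_num at h1
  have hm1 : χ (-1) = 1 := by
    rw [hval, quadraticChar_neg_one hchar, ZMod.card, ZMod.χ₄_nat_one_mod_four hp]
    norm_num
  have hψ := ZMod.isPrimitive_stdAddChar p
  obtain ⟨G, hG⟩ : ∃ G : ℂ, G = gaussSum χ (ZMod.stdAddChar (N := p)) := ⟨_, rfl⟩
  have hG2 : G ^ 2 = p := by
    rw [hG, gaussSum_sq hne hquad hψ, hm1, ZMod.card, one_mul]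
  have hGr : ∃ r : ℝ, G = r ∧ r ^ 2 = p := by
    have h1 : G ^ 2 = ((Real.sqrt p : ℝ) : ℂ) ^ 2 := by
      rw [hG2]
      have := Real.sq_sqrt (show (0 : ℝ) ≤ p by positivity)
      exact_mod_cast this.symm
    rcases sq_eq_sq_iff_eq_or_eq_neg.1 h1 with h | h
    · exact ⟨Real.sqrt p, h, Real.sq_sqrt (by positivity)⟩
    · refine ⟨-Real.sqrt p, by rw [h]; push_cast; rfl, ?_⟩
      rw [neg_sq]
      exact Real.sq_sqrt (by positivity)
  obtain ⟨r, hr, hr2⟩ := hGr
  have hsum : ∀ t : ZMod p, ∑ x : ZMod p, χ x * ZMod.stdAddChar (x * t) = χ t * G := by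
    intro t
    by_cases ht : t = 0
    · subst ht
      simp only [mul_zero, AddChar.map_zero_eq_one, mul_one]
      rw [MulChar.sum_eq_zero_of_ne_one hne, MulChar.map_zero, zero_mul]
    · have h1 := gaussSum_mulShift χ (ZMod.stdAddChar (N := p)) (Units.mk0 t ht)
      rw [Units.val_mk0, ← hG] at h1
      have h2 : gaussSum χ ((ZMod.stdAddChar (N := p)).mulShift t)
          = ∑ x : ZMod p, χ x * ZMod.stdAddChar (x * t) := by
        unfold gaussSum
        refine Finset.sum_congr rfl fun x _ => ?_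
        rw [AddChar.mulShift_apply, mul_comm t x]
      rw [← h2, ← h1, ← mul_assoc]
      have h3 : χ t * χ t = 1 := by
        have : (quadraticChar (ZMod p) t) ^ 2 = 1 := quadraticChar_sq_one ht
        rw [hval]
        rw [← Int.cast_mul, ← sq, this]
        norm_num
      rw [h3, one_mul]
  obtain ⟨u, hu⟩ : ∃ u : ℝ, u = 1 / Real.sqrt (p - 1) := ⟨_, rfl⟩
  obtain ⟨s, hs⟩ : ∃ s : ℝ, s = Real.sqrt ((p - 2) / (p - 1)) := ⟨_, rfl⟩
  have hu2 : u ^ 2 = 1 / (p - 1) := by
    rw [hu, div_pow, Real.sq_sqrt (by linarith), one_pow]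
  have hs2 : s ^ 2 = (p - 2) / (p - 1) := by
    rw [hs, Real.sq_sqrt]
    apply div_nonneg <;> linarith
  have hχr : ∀ x : ZMod p, x ≠ 0 → ∃ w : ℝ, χ x = w ∧ w ^ 2 = 1 := by
    intro x hx
    refine ⟨((quadraticChar (ZMod p) x : ℤ) : ℝ), ?_, ?_⟩
    · rw [hval]
      push_cast
      rfl
    · have : (quadraticChar (ZMod p) x) ^ 2 = 1 := quadraticChar_sq_one hx
      exact_mod_cast this
  have hnorm : ∀ a b : ℝ, ‖(a : ℂ) + Complex.I * b‖ ^ 2 = a ^ 2 + b ^ 2 := by
    intro a b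
    rw [← Complex.normSq_eq_norm_sq, Complex.normSq_apply]
    simp
    ring
  have hp1 : (p : ℝ) - 1 ≠ 0 := by linarith
  refine ⟨fun x => u + Complex.I * s * χ x, ?_, ?_⟩
  · intro x hx
    obtain ⟨w, hw, hw2⟩ := hχr x (Finset.ne_of_mem_erase hx)
    have h1 : ‖(u : ℂ) + Complex.I * s * χ x‖ ^ 2 = 1 := by
      rw [hw]
      have : (u : ℂ) + Complex.I * s * w = (u : ℂ) + Complex.I * ((s * w : ℝ) : ℂ) := by
        push_cast
        ring
      rw [this, hnorm, mul_pow, hw2, hu2, hs2]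
      field_simp
      ring
    have h0 := norm_nonneg ((u : ℂ) + Complex.I * s * χ x)
    nlinarith
  · intro t
    have hcard : (((univ : Finset (ZMod p)).erase 0).card : ℝ) = p - 1 := by
      rw [Finset.card_erase_of_mem (Finset.mem_univ _), Finset.card_univ, ZMod.card,
        Nat.cast_sub (by omega)]
      norm_num
    have h1 : ∑ x ∈ (univ : Finset (ZMod p)).erase 0, ((u : ℂ) + Complex.I * s * χ x) * e x t
        = u * ((if t = 0 then (p : ℂ) else 0) - 1) + Complex.I * s * (χ t * G) := by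
      have h2 : ∑ x : ZMod p, ((u : ℂ) + Complex.I * s * χ x) * e x t
          = u * (if t = 0 then (p : ℂ) else 0) + Complex.I * s * (χ t * G) := by
        have h3 : ∀ x : ZMod p, ((u : ℂ) + Complex.I * s * χ x) * e x t
            = u * ZMod.stdAddChar (x * t) + Complex.I * s * (χ x * ZMod.stdAddChar (x * t)) := by
          intro x
          rw [e_eq]
          ring
        rw [Finset.sum_congr rfl fun x _ => h3 x, Finset.sum_add_distrib, ← Finset.mul_sum,
          ← Finset.mul_sum, hsum, AddChar.sum_mulShift t hψ, ZMod.card]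
        push_cast
        rfl
      rw [← Finset.add_sum_erase _ _ (Finset.mem_univ (0 : ZMod p))] at h2
      have h4 : ((u : ℂ) + Complex.I * s * χ 0) * e 0 t = u := by
        rw [e_eq, zero_mul, AddChar.map_zero_eq_one, MulChar.map_zero]
        ring
      rw [h4] at h2
      linear_combination h2
    rw [h1, hcard]
    by_cases ht : t = 0
    · subst ht
      rw [if_pos rfl, MulChar.map_zero]
      have : (u : ℂ) * ((p : ℂ) - 1) + Complex.I * s * (0 * G)
          = ((u * (p - 1) : ℝ) : ℂ) + Complex.I * ((0 : ℝ) : ℂ) := by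
        push_cast
        ring
      rw [this, hnorm, mul_pow, hu2]
      field_simp
      ring
    · obtain ⟨w, hw, hw2⟩ := hχr t ht
      rw [if_neg ht, hw, hr]
      have : (u : ℂ) * ((0 : ℂ) - 1) + Complex.I * s * ((w : ℂ) * (r : ℂ))
          = ((-u : ℝ) : ℂ) + Complex.I * ((s * (w * r) : ℝ) : ℂ) := by
        push_cast
        ring
      rw [this, hnorm, mul_pow, mul_pow, hw2, neg_sq, hu2, hs2, hr2]
      field_simp
      ring

/-! ### `n = q + 1`, `q` a prime power -/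

section Field

variable {F : Type} [Field F] [Fintype F] [DecidableEq F]

/-- The subfield of order `q` of a field of order `q ^ 2`, as a set. -/
def sub (F : Type) [Field F] [Fintype F] [DecidableEq F] (q : ℕ) : Finset F :=
  univ.filter fun y => y ^ q = y

theorem mem_sub {q : ℕ} {y : F} : y ∈ sub F q ↔ y ^ q = y := by
  unfold sub
  rw [Finset.mem_filter]
  simp

theorem mem_sub_of_pow {q : ℕ} (hq : 1 ≤ q) {y : F} (h : y ^ (q - 1) = 1) : y ∈ sub F q := by
  rw [mem_sub]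
  obtain ⟨m, rfl⟩ : ∃ m, q = m + 1 := ⟨q - 1, by omega⟩
  rw [Nat.add_sub_cancel] at h
  rw [pow_succ, h, one_mul]

theorem pow_of_mem_sub {q : ℕ} (hq : 1 ≤ q) {y : F} (h : y ∈ sub F q) (h0 : y ≠ 0) :
    y ^ (q - 1) = 1 := by
  rw [mem_sub] at h
  obtain ⟨m, rfl⟩ : ∃ m, q = m + 1 := ⟨q - 1, by omega⟩
  rw [Nat.add_sub_cancel]
  rw [pow_succ] at h
  exact mul_right_cancel₀ h0 (by rw [h, one_mul])

theorem mul_mem_sub {q : ℕ} {x y : F} (hx : x ∈ sub F q) (hy : y ∈ sub F q) : x * y ∈ sub F q := by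
  rw [mem_sub] at *
  rw [mul_pow, hx, hy]

theorem inv_mem_sub {q : ℕ} {x : F} (hx : x ∈ sub F q) : x⁻¹ ∈ sub F q := by
  rw [mem_sub] at *
  rw [inv_pow, hx]

theorem sub_mem_sub {p k : ℕ} [Fact p.Prime] [CharP F p] {x y : F} (hx : x ∈ sub F (p ^ k))
    (hy : y ∈ sub F (p ^ k)) : x - y ∈ sub F (p ^ k) := by
  rw [mem_sub] at *
  rw [sub_pow_char_pow, hx, hy]

/-- `|K| = q`. -/
theorem card_sub {q : ℕ} (hq : 2 < q) (hF : Fintype.card F = q ^ 2) (g : Fˣ)
    (hg : ∀ x : Fˣ, x ∈ Subgroup.zpowers g) : (sub F q).card = q := by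
  have hord : orderOf g = q ^ 2 - 1 := by
    rw [orderOf_eq_card_of_forall_mem_zpowers hg, Nat.card_eq_fintype_card, Fintype.card_units, hF]
  have hfac : q ^ 2 - 1 = (q - 1) * (q + 1) := by
    obtain ⟨m, rfl⟩ : ∃ m, q = m + 1 := ⟨q - 1, by omega⟩
    have : (m + 1) ^ 2 = (m + 1 - 1) * (m + 1 + 1) + 1 := by
      rw [Nat.add_sub_cancel]
      ring
    omega
  have hprim : IsPrimitiveRoot (((g ^ (q + 1) : Fˣ)) : F) (q - 1) := by
    rw [IsPrimitiveRoot.coe_units_iff]
    have h1 : orderOf (g ^ (q + 1)) = q - 1 := by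
      rw [orderOf_pow' _ (by omega), hord, hfac, Nat.gcd_eq_right (Dvd.intro_left _ rfl)]
      exact Nat.mul_div_cancel _ (by omega)
    rw [← h1]
    exact IsPrimitiveRoot.orderOf _
  have h1 := hprim.card_nthRootsFinset
  have h2 : sub F q = insert 0 (Polynomial.nthRootsFinset (q - 1) (1 : F)) := by
    ext y
    rw [Finset.mem_insert, Polynomial.mem_nthRootsFinset (by omega)]
    constructor
    · intro h
      by_cases h0 : y = 0
      · exact Or.inl h0
      · exact Or.inr (pow_of_mem_sub (by omega) h h0)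
    · rintro (h | h)
      · rw [h, mem_sub, zero_pow (by omega)]
      · exact mem_sub_of_pow (by omega) h
  rw [h2, Finset.card_insert_of_notMem, h1]
  · omega
  · rw [Polynomial.mem_nthRootsFinset (by omega), zero_pow (by omega)]
    exact zero_ne_one

/-- The ratios of two different elements of `g + K` lie outside `K` and determine them. -/
theorem ratio {p k : ℕ} [Fact p.Prime] [CharP F p] {g : F} (hg : g ∉ sub F (p ^ k))
    {a b a' b' : F} (ha : a ∈ sub F (p ^ k)) (hb : b ∈ sub F (p ^ k)) (ha' : a' ∈ sub F (p ^ k))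
    (hb' : b' ∈ sub F (p ^ k)) (hab : a ≠ b)
    (h : (g + a) * (g + b)⁻¹ = (g + a') * (g + b')⁻¹) : a = a' ∧ b = b' := by
  have hne : ∀ c ∈ sub F (p ^ k), g + c ≠ 0 := by
    intro c hc h0
    apply hg
    have h1 := sub_mem_sub (x := (0 : F)) (y := c) (p := p) (k := k)
      (by rw [mem_sub, zero_pow (pow_ne_zero _ (Fact.out : p.Prime).ne_zero)]) hc
    have h2 : g = 0 - c := by linear_combination h0
    rwa [h2]
  have hbn := hne b hb
  have hbn' := hne b' hb'
  obtain ⟨δ, hδ⟩ : ∃ δ, δ = (g + a) * (g + b)⁻¹ := ⟨_, rfl⟩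
  have h1 : δ * (g + b) = g + a := by
    rw [hδ, mul_assoc, inv_mul_cancel₀ hbn, mul_one]
  have h2 : δ * (g + b') = g + a' := by
    rw [hδ, h, mul_assoc, inv_mul_cancel₀ hbn', mul_one]
  by_cases hbb : b = b'
  · refine ⟨?_, hbb⟩
    subst hbb
    linear_combination h2 - h1
  · exfalso
    have h3 : δ * (b - b') = a - a' := by linear_combination h1 - h2
    have h4 : δ ∈ sub F (p ^ k) := by
      have h5 : δ = (a - a') * (b - b')⁻¹ := by
        rw [← h3, mul_assoc, mul_inv_cancel₀ (sub_ne_zero.2 hbb), mul_one]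
      rw [h5]
      exact mul_mem_sub (sub_mem_sub ha ha') (inv_mem_sub (sub_mem_sub hb hb'))
    by_cases hd1 : δ = 1
    · rw [hd1, one_mul] at h1
      exact hab (by linear_combination -h1)
    · apply hg
      have h6 : g = (a - δ * b) * (δ - 1)⁻¹ := by
        have : g * (δ - 1) = a - δ * b := by linear_combination h1
        rw [← this, mul_assoc, mul_inv_cancel₀ (sub_ne_zero.2 hd1), mul_one]
      rw [h6]
      exact mul_mem_sub (sub_mem_sub ha (mul_mem_sub h4 hb))
        (inv_mem_sub (sub_mem_sub h4 (by rw [mem_sub, one_pow])))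

theorem ratio_notMem {p k : ℕ} [Fact p.Prime] [CharP F p] {g : F} (hg : g ∉ sub F (p ^ k))
    {a b : F} (ha : a ∈ sub F (p ^ k)) (hb : b ∈ sub F (p ^ k)) (hbn : g + b ≠ 0) (hab : a ≠ b) :
    (g + a) * (g + b)⁻¹ ∉ sub F (p ^ k) := by
  intro h4
  obtain ⟨δ, hδ⟩ : ∃ δ, δ = (g + a) * (g + b)⁻¹ := ⟨_, rfl⟩
  have h1 : δ * (g + b) = g + a := by
    rw [hδ, mul_assoc, inv_mul_cancel₀ hbn, mul_one]
  rw [← hδ] at h4
  by_cases hd1 : δ = 1
  · rw [hd1, one_mul] at h1
    exact hab (by linear_combination -h1)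
  · apply hg
    have h6 : g = (a - δ * b) * (δ - 1)⁻¹ := by
      have : g * (δ - 1) = a - δ * b := by linear_combination h1
      rw [← this, mul_assoc, mul_inv_cancel₀ (sub_ne_zero.2 hd1), mul_one]
    rw [h6]
    exact mul_mem_sub (sub_mem_sub ha (mul_mem_sub h4 hb))
      (inv_mem_sub (sub_mem_sub h4 (by rw [mem_sub, one_pow])))

omit [DecidableEq F] in
theorem norm_char (χ : MulChar F ℂ) {y : F} (hy : y ≠ 0) : ‖χ y‖ = 1 := by
  apply Complex.norm_eq_one_of_pow_eq_one (n := Fintype.card F - 1)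
  · rw [← map_pow, FiniteField.pow_card_sub_one_eq_one y hy, map_one]
  · have := Fintype.one_lt_card (α := F)
    omega

/-- The character sums over the line `g + K`. -/
theorem line_sum {p k : ℕ} [Fact p.Prime] [CharP F p] (hF : Fintype.card F = (p ^ k) ^ 2)
    {g : F} (hg : g ∉ sub F (p ^ k)) (hK : (sub F (p ^ k)).card = p ^ k) (χ : MulChar F ℂ)
    {y0 : F} (hy0 : y0 ∈ sub F (p ^ k)) (hy1 : y0 ≠ 0) (hχ : χ y0 ≠ 1) :
    ‖∑ a ∈ sub F (p ^ k), χ (g + a)‖ ^ 2 = (p ^ k : ℕ) := by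
  have hne : ∀ c ∈ sub F (p ^ k), g + c ≠ 0 := by
    intro c hc h0
    apply hg
    have h1 := sub_mem_sub (x := (0 : F)) (y := c) (p := p) (k := k)
      (by rw [mem_sub, zero_pow (pow_ne_zero _ (Fact.out : p.Prime).ne_zero)]) hc
    have h2 : g = 0 - c := by linear_combination h0
    rwa [h2]
  have hconj : ∀ b ∈ sub F (p ^ k), (starRingEnd ℂ) (χ (g + b)) = χ (g + b)⁻¹ := by
    intro b hb
    rw [← Complex.inv_eq_conj (norm_char χ (hne b hb))]
    have h1 : χ (g + b) * χ (g + b)⁻¹ = 1 := by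
      rw [← map_mul, mul_inv_cancel₀ (hne b hb), map_one]
    exact (eq_inv_of_mul_eq_one_right h1).symm
  have hφ : ((sub F (p ^ k)).offDiag).image (fun z : F × F => (g + z.1) * (g + z.2)⁻¹)
      = (sub F (p ^ k))ᶜ := by
    apply Finset.eq_of_subset_of_card_le
    · intro y hy
      rw [Finset.mem_image] at hy
      obtain ⟨⟨a, b⟩, hz, rfl⟩ := hy
      rw [Finset.mem_offDiag] at hz
      rw [Finset.mem_compl]
      exact ratio_notMem hg hz.1 hz.2.1 (hne _ hz.2.1) hz.2.2
    · rw [Finset.card_image_of_injOn, Finset.offDiag_card, Finset.card_compl, hF, hK, sq]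
      rintro ⟨a, b⟩ hz ⟨a', b'⟩ hz' h
      rw [Finset.mem_coe, Finset.mem_offDiag] at hz hz'
      have := ratio hg hz.1 hz.2.1 hz'.1 hz'.2.1 hz.2.2 h
      exact Prod.ext this.1 this.2
  have hinj : Set.InjOn (fun z : F × F => (g + z.1) * (g + z.2)⁻¹)
      ((sub F (p ^ k)).offDiag : Set (F × F)) := by
    rintro ⟨a, b⟩ hz ⟨a', b'⟩ hz' h
    rw [Finset.mem_coe, Finset.mem_offDiag] at hz hz'
    have := ratio hg hz.1 hz.2.1 hz'.1 hz'.2.1 hz.2.2 h
    exact Prod.ext this.1 this.2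
  have hK0 : ∑ y ∈ sub F (p ^ k), χ y = 0 := by
    have h1 : ∑ y ∈ sub F (p ^ k), χ y = χ y0 * ∑ y ∈ sub F (p ^ k), χ y := by
      rw [Finset.mul_sum]
      refine Finset.sum_nbij' (fun y => y0⁻¹ * y) (fun y => y0 * y) ?_ ?_ ?_ ?_ ?_
      · intro y hy
        exact mul_mem_sub (inv_mem_sub hy0) hy
      · intro y hy
        exact mul_mem_sub hy0 hy
      · intro y _
        rw [← mul_assoc, mul_inv_cancel₀ hy1, one_mul]
      · intro y _
        rw [← mul_assoc, inv_mul_cancel₀ hy1, one_mul]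
      · intro y _
        rw [← map_mul, ← mul_assoc, mul_inv_cancel₀ hy1, one_mul]
    have h2 : (1 - χ y0) * ∑ y ∈ sub F (p ^ k), χ y = 0 := by linear_combination h1
    rcases mul_eq_zero.1 h2 with h | h
    · exact absurd (by linear_combination -h) hχ
    · exact h
  have hχ1 : χ ≠ 1 := by
    intro h
    apply hχ
    rw [h]
    have := MulChar.one_apply_coe (R' := ℂ) (Units.mk0 y0 hy1)
    rwa [Units.val_mk0] at this
  have hC0 : ∑ y ∈ (sub F (p ^ k))ᶜ, χ y = 0 := by
    have h1 := MulChar.sum_eq_zero_of_ne_one hχ1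
    rw [← Finset.sum_add_sum_compl (sub F (p ^ k)), hK0, zero_add] at h1
    exact h1
  have hC : ((‖∑ a ∈ sub F (p ^ k), χ (g + a)‖ ^ 2 : ℝ) : ℂ) = (((p ^ k : ℕ) : ℝ) : ℂ) := by
    rw [← Complex.normSq_eq_norm_sq, ← Complex.mul_conj, map_sum, Finset.sum_mul_sum,
      ← Finset.sum_product', ← Finset.diag_union_offDiag, Finset.sum_union (Finset.disjoint_diag_offDiag _)]
    have h1 : ∑ z ∈ (sub F (p ^ k)).diag, χ (g + z.1) * (starRingEnd ℂ) (χ (g + z.2))
        = ((p ^ k : ℕ) : ℂ) := by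
      have h2 : ∀ z ∈ (sub F (p ^ k)).diag, χ (g + z.1) * (starRingEnd ℂ) (χ (g + z.2)) = 1 := by
        rintro ⟨a, b⟩ hz
        rw [Finset.mem_diag] at hz
        obtain ⟨hz1, hz2⟩ := hz
        simp only at hz1 hz2 ⊢
        subst hz2
        rw [hconj a hz1, ← map_mul, mul_inv_cancel₀ (hne a hz1), map_one]
      rw [Finset.sum_congr rfl h2, Finset.sum_const, Finset.diag_card, hK, nsmul_eq_mul, mul_one]
    have h3 : ∑ z ∈ (sub F (p ^ k)).offDiag, χ (g + z.1) * (starRingEnd ℂ) (χ (g + z.2)) = 0 := by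
      have h4 : ∀ z ∈ (sub F (p ^ k)).offDiag, χ (g + z.1) * (starRingEnd ℂ) (χ (g + z.2))
          = χ ((fun z : F × F => (g + z.1) * (g + z.2)⁻¹) z) := by
        rintro ⟨a, b⟩ hz
        rw [Finset.mem_offDiag] at hz
        rw [hconj _ hz.2.1, ← map_mul]
      rw [Finset.sum_congr rfl h4, ← Finset.sum_image (f := fun y => χ y) hinj, hφ]
      exact hC0
    rw [h1, h3, add_zero]
    push_cast
    rfl
  exact_mod_cast hC

end Field

theorem flat_succ_aux {F : Type} [Field F] [Fintype F] [DecidableEq F] {p k : ℕ} [Fact p.Prime]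
    [CharP F p] (hF : Fintype.card F = (p ^ k) ^ 2) (hq : 2 < p ^ k) :
    Flat ((univ : Finset (ZMod (p ^ k + 1))).erase 0) := by
  obtain ⟨q, hqdef⟩ : ∃ q, q = p ^ k := ⟨_, rfl⟩
  obtain ⟨g, hg⟩ := IsCyclic.exists_generator (α := Fˣ)
  have hfac : q ^ 2 - 1 = (q - 1) * (q + 1) := by
    obtain ⟨m, hm⟩ : ∃ m, q = m + 1 := ⟨q - 1, by omega⟩
    rw [hm]
    have : (m + 1) ^ 2 = (m + 1 - 1) * (m + 1 + 1) + 1 := by
      rw [Nat.add_sub_cancel]
      ring
    omega
  have hord : orderOf g = q ^ 2 - 1 := by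
    rw [orderOf_eq_card_of_forall_mem_zpowers hg, Nat.card_eq_fintype_card, Fintype.card_units, hF,
      hqdef]
  have hordF : orderOf (g : F) = (q + 1) * (q - 1) := by
    rw [orderOf_units, hord, hfac, mul_comm]
  have hK : (sub F (p ^ k)).card = p ^ k := card_sub hq hF g hg
  have hgK : (g : F) ∉ sub F (p ^ k) := by
    intro h
    have h1 := pow_of_mem_sub (by omega) h g.ne_zero
    rw [← hqdef] at h1
    have h2 := orderOf_dvd_of_pow_eq_one h1
    rw [hordF] at h2
    have h3 := Nat.le_of_dvd (by omega) h2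
    have h4 : (q - 1) * 2 ≤ (q - 1) * (q + 1) := Nat.mul_le_mul_left _ (by omega)
    rw [mul_comm (q + 1)] at h3
    omega
  have hne : ∀ c ∈ sub F (p ^ k), (g : F) + c ≠ 0 := by
    intro c hc h0
    apply hgK
    have h1 := sub_mem_sub (x := (0 : F)) (y := c) (p := p) (k := k)
      (by rw [mem_sub, zero_pow (pow_ne_zero _ (Fact.out : p.Prime).ne_zero)]) hc
    have h2 : (g : F) = 0 - c := by linear_combination h0
    rwa [h2]
  -- discrete logarithm
  have hlog : ∀ y : F, ∃ m : ℕ, y ≠ 0 → (g : F) ^ m = y := by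
    intro y
    by_cases hy : y = 0
    · exact ⟨0, fun h => absurd hy h⟩
    · have h1 := hg (Units.mk0 y hy)
      rw [← mem_powers_iff_mem_zpowers, Submonoid.mem_powers_iff] at h1
      obtain ⟨m, hm⟩ := h1
      refine ⟨m, fun _ => ?_⟩
      rw [← Units.val_pow_eq_pow_val, hm, Units.val_mk0]
  choose lg hlg using hlog
  -- characters
  obtain ⟨N, hN⟩ : ∃ N : ℕ, N = Fintype.card Fˣ := ⟨_, rfl⟩
  have hNq : N = (q - 1) * (q + 1) := by
    rw [hN, Fintype.card_units, hF, ← hqdef, hfac]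
  have hNpos : 0 < N := by
    rw [hNq]
    exact Nat.mul_pos (by omega) (by omega)
  have hζ : IsPrimitiveRoot (Complex.exp (2 * Real.pi * Complex.I / N)) N :=
    Complex.isPrimitiveRoot_exp N hNpos.ne'
  obtain ⟨ζ, hζ'⟩ : ∃ ζ : ℂ, ζ = Complex.exp (2 * Real.pi * Complex.I / N) := ⟨_, rfl⟩
  rw [← hζ'] at hζ
  have hζ0 : ζ ≠ 0 := hζ.ne_zero hNpos.ne'
  have hmem : Units.mk0 ζ hζ0 ∈ rootsOfUnity (Fintype.card Fˣ) ℂ := by
    rw [mem_rootsOfUnity, ← hN]
    ext
    rw [Units.val_pow_eq_pow_val, Units.val_mk0, hζ.pow_eq_one, Units.val_one]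
  obtain ⟨χ, hχ⟩ : ∃ χ : MulChar F ℂ, χ = MulChar.ofRootOfUnity hmem hg := ⟨_, rfl⟩
  have hχg : χ (g : F) = ζ := by
    rw [hχ, MulChar.ofRootOfUnity_spec, Units.val_mk0]
  have hζe : ζ ^ (q - 1) = ZMod.stdAddChar (1 : ZMod (q + 1)) := by
    have h1 : (1 : ZMod (q + 1)) = ((1 : ℤ) : ZMod (q + 1)) := by norm_num
    rw [h1, ZMod.stdAddChar_coe, hζ', ← Complex.exp_nat_mul]
    congr 1
    rw [hNq]
    have h2 : ((q - 1 : ℕ) : ℂ) ≠ 0 := by
      have : q - 1 ≠ 0 := by omega
      exact_mod_cast this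
    have h3 : ((q + 1 : ℕ) : ℂ) ≠ 0 := by
      have : q + 1 ≠ 0 := by omega
      exact_mod_cast this
    push_cast at h2 h3 ⊢
    rw [Nat.cast_sub (by omega)] at h2 ⊢
    push_cast at h2 h3 ⊢
    field_simp
  -- the parametrisation
  obtain ⟨f, hf⟩ : ∃ f : F → ZMod (q + 1), f = fun a => ((lg ((g : F) + a) : ℕ) : ZMod (q + 1)) :=
    ⟨_, rfl⟩
  have hpowmem : ∀ u : F, u ^ (q - 1) = 1 → u ∈ sub F (p ^ k) := by
    intro u hu
    rw [hqdef] at hu
    exact mem_sub_of_pow (by omega) hu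
  have hf0 : ∀ a ∈ sub F (p ^ k), f a ≠ 0 := by
    intro a ha h0
    rw [hf] at h0
    simp only at h0
    rw [ZMod.natCast_eq_zero_iff] at h0
    have h1 : ((g : F) + a) ^ (q - 1) = 1 := by
      rw [← hlg ((g : F) + a) (hne a ha), ← pow_mul]
      apply orderOf_dvd_iff_pow_eq_one.1
      rw [hordF]
      exact Nat.mul_dvd_mul_right h0 _
    apply hgK
    have h2 := sub_mem_sub (p := p) (k := k) (hpowmem _ h1) ha
    rwa [add_sub_cancel_right] at h2
  have hfinj : Set.InjOn f (sub F (p ^ k) : Set F) := by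
    intro a ha b hb h
    rw [Finset.mem_coe] at ha hb
    by_contra hab
    rw [hf] at h
    simp only at h
    rw [ZMod.natCast_eq_natCast_iff] at h
    have h1 : ((g : F) + a) ^ (q - 1) = ((g : F) + b) ^ (q - 1) := by
      rw [← hlg ((g : F) + a) (hne a ha), ← hlg ((g : F) + b) (hne b hb), ← pow_mul, ← pow_mul]
      rw [← Units.val_pow_eq_pow_val, ← Units.val_pow_eq_pow_val, Units.val_inj,
        pow_eq_pow_iff_modEq, hord, hfac, mul_comm (q - 1) (q + 1)]
      exact Nat.ModEq.mul_right' _ h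
    have h2 : (((g : F) + a) * ((g : F) + b)⁻¹) ^ (q - 1) = 1 := by
      rw [mul_pow, h1, ← mul_pow, mul_inv_cancel₀ (hne b hb), one_pow]
    exact ratio_notMem hgK ha hb (hne b hb) hab (hpowmem _ h2)
  rw [← hqdef]
  have himg : (sub F (p ^ k)).image f = (univ : Finset (ZMod (q + 1))).erase 0 := by
    apply Finset.eq_of_subset_of_card_le
    · intro x hx
      rw [Finset.mem_image] at hx
      obtain ⟨a, ha, rfl⟩ := hx
      rw [Finset.mem_erase]
      exact ⟨hf0 a ha, Finset.mem_univ _⟩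
    · rw [Finset.card_image_of_injOn hfinj, hK, Finset.card_erase_of_mem (Finset.mem_univ _),
        Finset.card_univ, ZMod.card, ← hqdef]
      omega
  have hcard : ((univ : Finset (ZMod (q + 1))).erase 0).card = q := by
    rw [Finset.card_erase_of_mem (Finset.mem_univ _), Finset.card_univ, ZMod.card]
    omega
  obtain ⟨c, hc⟩ : ∃ c : ZMod (q + 1) → ℂ,
      c = fun x => χ ((g : F) + Function.invFunOn f (sub F (p ^ k) : Set F) x) := ⟨_, rfl⟩
  have hcf : ∀ a ∈ sub F (p ^ k), c (f a) = χ ((g : F) + a) := by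
    intro a ha
    rw [hc]
    simp only
    rw [hfinj.leftInvOn_invFunOn (Finset.mem_coe.2 ha)]
  refine ⟨c, ?_, ?_⟩
  · intro x hx
    rw [← himg, Finset.mem_image] at hx
    obtain ⟨a, ha, rfl⟩ := hx
    rw [hcf a ha]
    exact norm_char χ (hne a ha)
  · intro t
    obtain ⟨s, hs⟩ : ∃ s : ℕ, s = (q - 1) * t.val + 1 := ⟨_, rfl⟩
    have h1 : ∑ x ∈ (univ : Finset (ZMod (q + 1))).erase 0, c x * e x t
        = ∑ a ∈ sub F (p ^ k), (χ ^ s) ((g : F) + a) := by
      rw [← himg, Finset.sum_image hfinj]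
      refine Finset.sum_congr rfl fun a ha => ?_
      have hga : ((g : F) + a) ≠ 0 := hne a ha
      rw [hcf a ha, MulChar.pow_apply' _ (by omega)]
      have h2 : e (f a) t = χ ((g : F) + a) ^ ((q - 1) * t.val) := by
        rw [e_eq]
        have h3 : f a * t = (lg ((g : F) + a) * t.val) • (1 : ZMod (q + 1)) := by
          rw [hf, nsmul_eq_mul, mul_one]
          push_cast
          rw [ZMod.natCast_zmod_val]
        rw [h3, AddChar.map_nsmul_eq_pow, ← hζe, ← hχg]
        conv_rhs => rw [← hlg ((g : F) + a) hga, map_pow]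
        rw [← pow_mul, ← pow_mul]
        congr 1
        ring
      rw [h2, hs, pow_succ, mul_comm]
    rw [h1, hcard]
    -- a subfield element on which the character is nontrivial
    have hy0 : ((g : F) ^ (q + 1)) ∈ sub F (p ^ k) := by
      apply hpowmem
      rw [← pow_mul]
      apply orderOf_dvd_iff_pow_eq_one.1
      rw [hordF]
    have hy1 : ((g : F) ^ (q + 1)) ≠ 0 := pow_ne_zero _ g.ne_zero
    have hχy : (χ ^ s) ((g : F) ^ (q + 1)) ≠ 1 := by
      rw [MulChar.pow_apply' _ (by omega), map_pow, hχg, ← pow_mul]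
      intro h
      have h2 := (hζ.pow_eq_one_iff_dvd _).1 h
      rw [hNq, mul_comm] at h2
      have h3 : (q - 1) ∣ s := Nat.dvd_of_mul_dvd_mul_left (by omega) h2
      rw [hs] at h3
      have h4 : (q - 1) ∣ 1 := (Nat.dvd_add_right (Dvd.intro _ rfl)).1 h3
      have h5 := Nat.le_of_dvd one_pos h4
      omega
    have h6 := line_sum hF hgK hK (χ ^ s) hy0 hy1 hχy
    rw [h6, hqdef]

theorem flat_succ (q : ℕ) (hq : IsPrimePow q) (h2 : 2 < q) :
    Flat ((univ : Finset (ZMod (q + 1))).erase 0) := by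
  obtain ⟨p, k, hp, hk, rfl⟩ := (isPrimePow_nat_iff q).1 hq
  have : Fact p.Prime := ⟨hp⟩
  classical
  let _ : Fintype (GaloisField p (k * 2)) := Fintype.ofFinite _
  have hF : Fintype.card (GaloisField p (k * 2)) = (p ^ k) ^ 2 := by
    rw [← Nat.card_eq_fintype_card, GaloisField.card p (k * 2) (by omega), pow_mul]
  exact flat_succ_aux hF h2

/-- Let `n = q + 1` with a prime power `q > 2`, or let `n` be a prime with `n ≡ 1 (mod 4)`. Then
every subset of `ℤ_n` with `n - 1` elements is extreme: its Sidon constant is `√(n - 1)`. -/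
theorem result (n : ℕ) [NeZero n]
    (hn : (∃ q : ℕ, IsPrimePow q ∧ 2 < q ∧ n = q + 1) ∨ (n.Prime ∧ n % 4 = 1))
    (E : Finset (ZMod n)) (hE : E.card = n - 1) : Extreme E := by
  have h4 : 2 ≤ n := by
    rcases hn with ⟨q, _, h, rfl⟩ | ⟨h, _⟩
    · omega
    · exact h.two_le
  have h0 : Flat ((univ : Finset (ZMod n)).erase 0) := by
    rcases hn with ⟨q, h1, h2, rfl⟩ | ⟨h1, h2⟩
    · exact flat_succ q h1 h2
    · have : Fact n.Prime := ⟨h1⟩
      exact flat_prime n h2
  exact extreme_of_flat E (by omega) (flat_of_card h0 E (by omega))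

end Pool.Agent.Results.MP_462016_an.PrimePowerPlusOne
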